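import Mathlib
import Pool.Agent.N310.CN.F3

set_option autoImplicit false

/-!
# No real zeros, for quadratic characters ordered by class number

The primitive quadratic characters `χ` are ordered by the size of `√N L(1,χ)`, where `N` is the
conductor. (By Dirichlet's class number formula this is `π` times the class number of the imaginary
quadratic field of `χ` if `χ(-1) = -1` and `N > 4`, and `2` times the class number times the
regulator of the real quadratic field of `χ` if `χ(-1) = 1`.) In this order too, at least 86.45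
percent of the functions `L(s,χ)` have no real zero in `(0,1)`.
-/

namespace Pool.Agent.Results.MP_0016c7_nt.ClassNumberOrdering

/-- The pairs `(N, χ)` with `χ` a nontrivial primitive quadratic Dirichlet character modulo `N ≥ 1`
such that `χ(-1) = s` and `χ(p) = c p` for all `p ∈ S`, and `√N L(1,χ) ≤ Y`. There is no condition on
the size of the conductor `N` itself. -/
def Class (S : Finset ℕ) (c : ℕ → ℤ) (s : ℤ) (Y : ℝ) : Set (Σ N : ℕ, DirichletCharacter ℂ N) :=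
  {p | p.1 ≠ 0 ∧ p.2.IsPrimitive ∧ p.2 ^ 2 = 1 ∧ p.2 ≠ 1 ∧ p.2 (-1) = (s : ℂ) ∧
    (∀ q ∈ S, p.2 (q : ZMod p.1) = (c q : ℂ)) ∧
    ∃ _ : NeZero p.1, Real.sqrt p.1 * (DirichletCharacter.LFunction p.2 1).re ≤ Y}

/-- `L(s,χ)` is real and positive for every real `s` with `0 < s < 1`. -/
def Positive (p : Σ N : ℕ, DirichletCharacter ℂ N) : Prop :=
  ∃ _ : NeZero p.1, ∀ s : ℝ, 0 < s → s < 1 →
    (DirichletCharacter.LFunction p.2 (s : ℂ)).im = 0 ∧
    0 < (DirichletCharacter.LFunction p.2 (s : ℂ)).re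

/-- **Theorem.** Let `S` be a finite set of primes, `c p ∈ {0, 1, -1}` for `p ∈ S` and
`s ∈ {1, -1}`. For every `Y` there are only finitely many primitive quadratic characters `χ` with
`χ(p) = c p` for `p ∈ S`, `χ(-1) = s` and `√N L(1,χ) ≤ Y`; there are at least `κ Y ^ 2` of them for
large `Y`, with some `κ > 0`; and for all large `Y` at least 86.45 percent of them satisfy
`L(σ,χ) > 0` for all `0 < σ < 1`. -/
theorem result (S : Finset ℕ) (hS : ∀ p ∈ S, p.Prime) (c : ℕ → ℤ)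
    (hc : ∀ p ∈ S, c p = 0 ∨ c p = 1 ∨ c p = -1) (s : ℤ) (hs : s = 1 ∨ s = -1) :
    (∀ Y : ℝ, (Class S c s Y).Finite) ∧
    (∃ κ : ℝ, 0 < κ ∧ ∃ Y0 : ℝ, ∀ Y : ℝ, Y0 ≤ Y → κ * Y ^ 2 ≤ ((Class S c s Y).ncard : ℝ)) ∧
    (∃ Y0 : ℝ, ∀ Y : ℝ, Y0 ≤ Y →
      (8645 / 10000 : ℝ) * ((Class S c s Y).ncard : ℝ) ≤
        ((Class S c s Y ∩ {p | Positive p}).ncard : ℝ)) := by
  have e1 : ∀ Y : ℝ, Class S c s Y = Pool.Agent.N310.CN.FC S c s Y := by
    intro Y
    ext p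
    constructor
    · rintro ⟨h1, h2, h3, h4, h5, h6, h7, h8⟩
      refine ⟨⟨h1, h2, h3, h4⟩, ⟨h5, h6⟩, ?_⟩
      show Real.sqrt p.1 * Pool.Agent.N310.CN.L1 p ≤ Y
      rw [Pool.Agent.N310.CN.L1_eq]
      exact h8
    · rintro ⟨⟨h1, h2, h3, h4⟩, ⟨h5, h6⟩, h7⟩
      refine ⟨h1, h2, h3, h4, h5, h6, ⟨h1⟩, ?_⟩
      haveI : NeZero p.1 := ⟨h1⟩
      have h8 : Real.sqrt p.1 * Pool.Agent.N310.CN.L1 p ≤ Y := h7
      rw [Pool.Agent.N310.CN.L1_eq] at h8
      exact h8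
  have e2 : ∀ Y : ℝ, Class S c s Y ∩ {p | Positive p} =
      Pool.Agent.N310.CN.FC S c s Y ∩ {p | Pool.Agent.H306R2.RG.LnkC.POS p} := by
    intro Y
    rw [e1]
    rfl
  refine ⟨fun Y => ?_, ?_, ?_⟩
  · rw [e1]
    exact Pool.Agent.N310.CN.FC_fin S c s Y
  · obtain ⟨κ, hκ, Y0, h⟩ := Pool.Agent.N310.CN.FC_low S hS c hc s hs
    exact ⟨κ, hκ, Y0, fun Y hY => by rw [e1]; exact h Y hY⟩
  · obtain ⟨Y0, h⟩ := Pool.Agent.N310.CN.mainC S hS c hc s hs
    exact ⟨Y0, fun Y hY => by rw [e2, e1]; exact h Y hY⟩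

end Pool.Agent.Results.MP_0016c7_nt.ClassNumberOrdering
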