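import Mathlib
import Pool.Agent.N310.UV.P4

set_option autoImplicit false

/-!
# No real zeros, conditionally on the values of `L(s,χ)` to the right of `1/2`; universality

Take any event that is described by the values of `L(σ,χ)` on an interval `a ≤ σ ≤ 1` with
`a > 1/2` (and, if one likes, by the parity of `χ` and the values of `χ` at finitely many primes).
Among the primitive quadratic characters in this event, at least 86.45 percent have no real zero in
`(0,1)`, up to an arbitrarily small change of the event and `o(X)` characters.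

It follows that in every class of primitive quadratic characters with prescribed parity and
prescribed values at finitely many primes, a positive proportion of the characters have no real zero
in `(0,1)` and an L-function which approximates a given positive continuous function on an interval
inside `(1/2, 1)`.
-/

namespace Pool.Agent.Results.MP_0016c7_nt.ConditionalPositivity

/-- The pairs `(N, χ)` with `1 ≤ N ≤ X` and `χ` a nontrivial primitive quadratic Dirichlet
character modulo `N` such that `χ(-1) = s` and `χ(p) = c p` for all `p ∈ S`. -/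
def Class (S : Finset ℕ) (c : ℕ → ℤ) (s : ℤ) (X : ℕ) : Set (Σ N : ℕ, DirichletCharacter ℂ N) :=
  {p | p.1 ≠ 0 ∧ p.1 ≤ X ∧ p.2.IsPrimitive ∧ p.2 ^ 2 = 1 ∧ p.2 ≠ 1 ∧ p.2 (-1) = (s : ℂ) ∧
    ∀ q ∈ S, p.2 (q : ZMod p.1) = (c q : ℂ)}

/-- `L(s,χ)` is real and positive for every real `s` with `0 < s < 1`. -/
def Positive (p : Σ N : ℕ, DirichletCharacter ℂ N) : Prop :=
  ∃ _ : NeZero p.1, ∀ s : ℝ, 0 < s → s < 1 →
    (DirichletCharacter.LFunction p.2 (s : ℂ)).im = 0 ∧
    0 < (DirichletCharacter.LFunction p.2 (s : ℂ)).re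

/-- On the interval `[a,1]`, the function `σ ↦ L(σ,χ)` is within `ε`, in the supremum norm, of some
function of the family `W`. -/
def Near (W : Set (ℝ → ℝ)) (a ε : ℝ) (p : Σ N : ℕ, DirichletCharacter ℂ N) : Prop :=
  ∃ _ : NeZero p.1, ∃ f ∈ W, ∀ σ : ℝ, a ≤ σ → σ ≤ 1 →
    ‖DirichletCharacter.LFunction p.2 (σ : ℂ) - ((f σ : ℝ) : ℂ)‖ ≤ ε

/-- `L(σ,χ)` is within `ε` of `f(σ)` for all `σ` in `[a,b]`. -/
def Close (f : ℝ → ℝ) (a b ε : ℝ) (p : Σ N : ℕ, DirichletCharacter ℂ N) : Prop :=
  ∃ _ : NeZero p.1, ∀ σ : ℝ, a ≤ σ → σ ≤ b →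
    ‖DirichletCharacter.LFunction p.2 (σ : ℂ) - ((f σ : ℝ) : ℂ)‖ < ε

/-- **Theorem.** Let `S` be a finite set of primes, `c` a prescription of the values at the primes
of `S` and `s` a prescription of the parity.

* Let `1/2 < a ≤ 1`, let `W` be any set of real functions, and `ε' < ε`, `η > 0`. For all large `X`,
  the number of characters of conductor at most `X` in the class which have no real zero in `(0,1)`
  and whose L-function is `ε`-close on `[a,1]` to a function of `W` is at least `0.8645` times the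
  number of all characters in the class whose L-function is `ε'`-close on `[a,1]` to a function of
  `W`, minus `η X`.
* Let `c p ∈ {0, 1, -1}` for `p ∈ S`, `1/2 < a ≤ b < 1`, let `f` be continuous and positive on
  `[a,b]` and `ε > 0`. There is `κ > 0` such that for all large `X` at least `κ X` characters `χ` of
  conductor at most `X` in the class satisfy `L(σ,χ) > 0` for all `0 < σ < 1` and
  `|L(σ,χ) - f(σ)| < ε` for all `a ≤ σ ≤ b`. -/
theorem result (S : Finset ℕ) (hS : ∀ p ∈ S, p.Prime) (c : ℕ → ℤ) (s : ℤ)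
    (hs : s = 1 ∨ s = -1) :
    (∀ a : ℝ, 1 / 2 < a → a ≤ 1 → ∀ (W : Set (ℝ → ℝ)) (ε' ε : ℝ), ε' < ε → ∀ η : ℝ, 0 < η →
      ∃ X0 : ℕ, ∀ X : ℕ, X0 ≤ X →
        (8645 / 10000 : ℝ) * ((Class S c s X ∩ {p | Near W a ε' p}).ncard : ℝ) - η * X ≤
          ((Class S c s X ∩ {p | Near W a ε p} ∩ {p | Positive p}).ncard : ℝ)) ∧
    ((∀ p ∈ S, c p = 0 ∨ c p = 1 ∨ c p = -1) → ∀ a b : ℝ, 1 / 2 < a → a ≤ b → b < 1 →
      ∀ f : ℝ → ℝ, ContinuousOn f (Set.Icc a b) → (∀ σ ∈ Set.Icc a b, 0 < f σ) →
      ∀ ε : ℝ, 0 < ε → ∃ κ : ℝ, 0 < κ ∧ ∃ X0 : ℕ, ∀ X : ℕ, X0 ≤ X →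
        κ * X ≤ ((Class S c s X ∩ {p | Close f a b ε p} ∩ {p | Positive p}).ncard : ℝ)) :=
  ⟨fun a ha ha1 W ε' ε hε η hη =>
    Pool.Agent.N310.UV.partA (fun _ p => Positive p) (8645 / 10000) (by norm_num) (by norm_num)
      S hS c s (fun T hT g hg =>
        (Pool.Agent.Results.MP_0016c7_nt.LocalClasses.result T hT g hg s hs).2.2) a ha ha1 W ε' ε
      hε η hη,
  fun hc a b ha hab hb f hf hpos ε hε =>
    Pool.Agent.N310.UV.partB (fun _ p => Positive p) (8645 / 10000) (by norm_num) (by norm_num)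
      S hS c hc s hs (fun T hT g hg =>
        (Pool.Agent.Results.MP_0016c7_nt.LocalClasses.result T hT g hg s hs).2.2) a b ha hab hb f hf
      hpos ε hε⟩

end Pool.Agent.Results.MP_0016c7_nt.ConditionalPositivity
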