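import Mathlib
import Pool.Agent.N310.FZ.Ev

set_option autoImplicit false

/-!
# How far from `1/2` can the real zeros of quadratic L-functions be?

The proportion of the primitive quadratic characters of conductor at most `X` whose L-function has
a zero in `(0,1)` at distance at least `x / log X` from `1/2` is at most
`(x/2) exp(-0.998 x)`, for every `x ≥ 1` and all large `X`: the zeros in `(0,1)` of at least 95, 99
and 99.9 percent of them are at distance less than `2.9 / log X`, `5.1 / log X` and `7.8 / log X`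
from `1/2`. The same bounds hold among the characters with prescribed parity and prescribed values
at finitely many primes, and among those in any event described by the values of `L(σ,χ)` on
`[a,1]`, `a > 1/2`.
-/

namespace Pool.Agent.Results.MP_0016c7_nt.LargestRealZero

/-- The pairs `(N, χ)` with `1 ≤ N ≤ X` and `χ` a nontrivial primitive quadratic Dirichlet
character modulo `N` such that `χ(-1) = s` and `χ(p) = c p` for all `p ∈ S`. -/
def Class (S : Finset ℕ) (c : ℕ → ℤ) (s : ℤ) (X : ℕ) : Set (Σ N : ℕ, DirichletCharacter ℂ N) :=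
  {p | p.1 ≠ 0 ∧ p.1 ≤ X ∧ p.2.IsPrimitive ∧ p.2 ^ 2 = 1 ∧ p.2 ≠ 1 ∧ p.2 (-1) = (s : ℂ) ∧
    ∀ q ∈ S, p.2 (q : ZMod p.1) = (c q : ℂ)}

/-- `L(·,χ)` has a zero `σ` in `(0,1)` with `|σ - 1/2| ≥ x / log X`. -/
def FarZero (x : ℝ) (X : ℕ) (p : Σ N : ℕ, DirichletCharacter ℂ N) : Prop :=
  ∃ _ : NeZero p.1, ∃ σ : ℝ, 0 < σ ∧ σ < 1 ∧ x / Real.log X ≤ |σ - 1 / 2| ∧
    DirichletCharacter.LFunction p.2 (σ : ℂ) = 0

/-- On the interval `[a,1]`, the function `σ ↦ L(σ,χ)` is within `ε`, in the supremum norm, of some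
function of the family `W`. -/
def Near (W : Set (ℝ → ℝ)) (a ε : ℝ) (p : Σ N : ℕ, DirichletCharacter ℂ N) : Prop :=
  ∃ _ : NeZero p.1, ∃ f ∈ W, ∀ σ : ℝ, a ≤ σ → σ ≤ 1 →
    ‖DirichletCharacter.LFunction p.2 (σ : ℂ) - ((f σ : ℝ) : ℂ)‖ ≤ ε

/-- `R(x) = √(x (sinh x - x)) / (4 sinh(0.7495 x) sinh(0.2495 x))`. -/
noncomputable def R (x : ℝ) : ℝ := √(x * (Real.sinh x - x)) /
  (4 * Real.sinh (0.7495 * x) * Real.sinh (0.2495 * x))

/-- `Ψ(x) = 0.5732 (R(x) / (1 + 0.27 R(x)))² + 0.0186 R(x)²`. -/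
noncomputable def Ψ (x : ℝ) : ℝ := 0.5732 * (R x / (1 + 0.27 * R x)) ^ 2 + 0.0186 * R x ^ 2

/-- **Theorem.** Let `S` be a finite set of primes, `c` a prescription of the values at the primes
of `S` and `s` a prescription of the parity.

* For every `x > 0` and all large `X`, the proportion of the characters of conductor at most `X` in
  the class whose L-function has a zero in `(0,1)` at distance at least `x / log X` from `1/2` is at
  most `Ψ(x)`.
* The same holds in every event described by the values on `[a,1]`, `1/2 < a ≤ 1` (up to an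
  arbitrarily small change of the event and `o(X)` characters).
* `Ψ(x) ≤ (x/2) exp(-0.998 x)` for all `x ≥ 1`, `Ψ(2.9) ≤ 1/20`, `Ψ(5.1) ≤ 1/100` and
  `Ψ(7.8) ≤ 1/1000`. -/
theorem result (S : Finset ℕ) (hS : ∀ p ∈ S, p.Prime) (c : ℕ → ℤ) (s : ℤ) :
    (∀ X : ℕ, (Class S c s X).Finite) ∧
    (∀ x : ℝ, 0 < x → ∃ X0 : ℕ, ∀ X : ℕ, X0 ≤ X →
      ((Class S c s X ∩ {p | FarZero x X p}).ncard : ℝ) ≤
        Ψ x * ((Class S c s X).ncard : ℝ)) ∧
    (∀ x : ℝ, 0 < x → ∀ a : ℝ, 1 / 2 < a → a ≤ 1 → ∀ (W : Set (ℝ → ℝ)) (ε' ε : ℝ), ε' < ε →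
      ∀ η : ℝ, 0 < η → ∃ X0 : ℕ, ∀ X : ℕ, X0 ≤ X →
        ((Class S c s X ∩ {p | Near W a ε' p} ∩ {p | FarZero x X p}).ncard : ℝ) ≤
          Ψ x * ((Class S c s X ∩ {p | Near W a ε p}).ncard : ℝ) + η * X) ∧
    (∀ x : ℝ, 1 ≤ x → Ψ x ≤ x / 2 * Real.exp (-(0.998 * x))) ∧
    Ψ 2.9 ≤ 1 / 20 ∧ Ψ 5.1 ≤ 1 / 100 ∧ Ψ 7.8 ≤ 1 / 1000 :=
  ⟨fun X => Pool.Agent.N310.CN.Class_fin S c s X,
    fun x hx => Pool.Agent.N310.FZ.farAll S hS c s x hx,
    fun x hx a ha ha1 W ε' ε hεε η hη =>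
      Pool.Agent.N310.FZ.farEv S hS c s x hx a ha ha1 W ε' ε hεε η hη,
    fun x hx => Pool.Agent.N310.FZ.PS_exp hx,
    Pool.Agent.N310.FZ.PS1, Pool.Agent.N310.FZ.PS2, Pool.Agent.N310.FZ.PS3⟩

end Pool.Agent.Results.MP_0016c7_nt.LargestRealZero
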